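import Mathlib

/-!
# MP_453038_al : lower subindex `2` with prescribed infinite upper subindex
-/

namespace Pool.Agent.Results.MP_453038_al.LowerTwo

open Cardinal

universe u

/-- The product `AB` is direct. -/
def IsDirect {G : Type u} [Group G] (A B : Set G) : Prop :=
  ∀ a ∈ A, ∀ b ∈ B, ∀ a' ∈ A, ∀ b' ∈ B, a * b = a' * b' → a = a' ∧ b = b'

/-- `B` is a right subfactor of `G` related to `A`: maximal among the `B` with `AB` direct. -/
def IsRightSubfactor {G : Type u} [Group G] (A B : Set G) : Prop :=
  IsDirect A B ∧ ∀ C : Set G, IsDirect A C → B ⊆ C → C = B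

/-- The right upper subindex `|G:A|^+`. -/
noncomputable def upperIndex {G : Type u} [Group G] (A : Set G) : Cardinal.{u} :=
  sSup {c | ∃ B : Set G, IsRightSubfactor A B ∧ c = #B}

/-- The right lower subindex `|G:A|^-`. -/
noncomputable def lowerIndex {G : Type u} [Group G] (A : Set G) : Cardinal.{u} :=
  sInf {c | ∃ B : Set G, IsRightSubfactor A B ∧ c = #B}

/-- The ambient group. -/
abbrev Amb (P : Type u) : Type u := P × Multiplicative (P →₀ ℤ)

theorem exists_bound {P : Type u} (f : P →₀ ℤ) : ∃ m : ℤ, ∀ i, |f i| ≤ m := by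
  classical
  refine ⟨∑ j ∈ f.support, |f j|, fun i => ?_⟩
  by_cases hi : i ∈ f.support
  · exact Finset.single_le_sum (f := fun j => |f j|) (fun j _ => abs_nonneg _) hi
  · rw [Finsupp.notMem_support_iff.mp hi, abs_zero]
    exact Finset.sum_nonneg (fun j _ => abs_nonneg _)

/-- Realization: every symmetric `E ⊆ P \ {1}` is the complement of some `A⁻¹A` in `Amb P`. -/
theorem realize {P : Type u} [Group P] (ι : Amb P → P) (hι : Function.Injective ι)
    (E : Set P) (h1 : (1 : P) ∉ E) (hsym : ∀ e ∈ E, e⁻¹ ∈ E) :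
    ∃ A : Set (Amb P), A.Nonempty ∧
      ∀ g : Amb P, (∃ a ∈ A, ∃ a' ∈ A, a⁻¹ * a' = g) ↔ ¬ (g.1 ∈ E ∧ g.2 = 1) := by
  classical
  choose m hm using fun g : Amb P => exists_bound (Multiplicative.toAdd g.2)
  let x : Amb P → Amb P := fun g => (1, Multiplicative.ofAdd (Finsupp.single (ι g) (2 * m g + 1)))
  let A : Set (Amb P) := {a | ∃ g : Amb P, ¬ (g.1 ∈ E ∧ g.2 = 1) ∧ (a = x g ∨ a = x g * g)}
  -- every element of `A` has second coordinate `c_g δ + ε f_g`
  have key : ∀ g h : Amb P, g ≠ h → ∀ u v : P →₀ ℤ,
      (∀ i, |u i| ≤ m g) → (∀ i, |v i| ≤ m h) →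
      Finsupp.single (ι g) (2 * m g + 1) + u = Finsupp.single (ι h) (2 * m h + 1) + v →
      False := by
    intro g h hgh u v hu hv he
    have hne : ι g ≠ ι h := fun hh => hgh (hι hh)
    have e1 := DFunLike.congr_fun he (ι g)
    have e2 := DFunLike.congr_fun he (ι h)
    simp only [Finsupp.add_apply, Finsupp.single_eq_same, Finsupp.single_eq_of_ne hne,
      Finsupp.single_eq_of_ne hne.symm] at e1 e2
    have a1 := abs_le.mp (hu (ι g))
    have a2 := abs_le.mp (hu (ι h))
    have a3 := abs_le.mp (hv (ι g))
    have a4 := abs_le.mp (hv (ι h))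
    omega
  refine ⟨A, ⟨x 1, 1, ?_, Or.inl rfl⟩, ?_⟩
  · rintro ⟨h, _⟩; exact h1 h
  intro g
  constructor
  · rintro ⟨a, ⟨u, hu, hau⟩, a', ⟨v, hv, hav⟩, rfl⟩
    by_cases huv : u = v
    · subst huv
      rintro ⟨hE, hone⟩
      rcases hau with rfl | rfl <;> rcases hav with rfl | rfl
      · rw [inv_mul_cancel] at hE; exact h1 hE
      · rw [inv_mul_cancel_left] at hE hone; exact hu ⟨hE, hone⟩
      · have e : (x u * u)⁻¹ * x u = u⁻¹ := by group
        rw [e] at hE hone
        apply hu
        refine ⟨?_, by simpa using hone⟩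
        have := hsym _ hE
        simpa using this
      · rw [inv_mul_cancel] at hE; exact h1 hE
    · rintro ⟨-, hone⟩
      have hz : ∀ w : Amb P, 0 ≤ m w := fun w => (abs_nonneg _).trans (hm w 1)
      have hadd : Multiplicative.toAdd a.2 = Multiplicative.toAdd a'.2 := by
        have h2 : a.2⁻¹ * a'.2 = 1 := hone
        have h3 : a.2 = a'.2 := (inv_mul_eq_one.mp h2)
        rw [h3]
      have hA : ∃ u' : P →₀ ℤ, (∀ i, |u' i| ≤ m u) ∧
          Multiplicative.toAdd a.2 = Finsupp.single (ι u) (2 * m u + 1) + u' := by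
        rcases hau with rfl | rfl
        · exact ⟨0, fun i => by simpa using hz u, by simp [x]⟩
        · exact ⟨Multiplicative.toAdd u.2, hm u, by simp [x]⟩
      have hB : ∃ u' : P →₀ ℤ, (∀ i, |u' i| ≤ m v) ∧
          Multiplicative.toAdd a'.2 = Finsupp.single (ι v) (2 * m v + 1) + u' := by
        rcases hav with rfl | rfl
        · exact ⟨0, fun i => by simpa using hz v, by simp [x]⟩
        · exact ⟨Multiplicative.toAdd v.2, hm v, by simp [x]⟩
      obtain ⟨u', hu', hau'⟩ := hA
      obtain ⟨v', hv', hav'⟩ := hB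
      exact key u v huv u' v' hu' hv' (by rw [← hau', ← hav', hadd])
  · intro hg
    exact ⟨x g, ⟨g, hg, Or.inl rfl⟩, x g * g, ⟨g, hg, Or.inr rfl⟩, by group⟩

/-- The connection set. -/
def conn {P : Type u} [Group P] (H : Subgroup P) (b : P) : Set P :=
  {p | (p ∈ H ∧ p ≠ 1) ∨ p = b ∨ p = b⁻¹}

theorem main_construction {P : Type u} [Group P] (ι : Amb P → P) (hι : Function.Injective ι)
    (H : Subgroup P) (b : P) (hb : b ∉ H) (hb2 : b * b ∉ H) (hb3 : b * b * b ≠ 1)
    (hcard : #H = #(Amb P)) :
    ∃ A : Set (Amb P), lowerIndex A = 2 ∧ upperIndex A = #(Amb P) := by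
  classical
  have hb1 : b ≠ 1 := fun h => hb (h ▸ H.one_mem)
  have hbinv : b⁻¹ ∉ H := fun h => hb (by simpa using H.inv_mem h)
  have h1 : (1 : P) ∉ conn H b := by
    rintro (⟨_, h⟩ | h | h)
    · exact h rfl
    · exact hb1 h.symm
    · exact hb1 (by simpa using h.symm)
  have hsym : ∀ e ∈ conn H b, e⁻¹ ∈ conn H b := by
    rintro e (⟨h, h'⟩ | rfl | rfl)
    · exact Or.inl ⟨H.inv_mem h, by simpa using h'⟩
    · exact Or.inr (Or.inr rfl)
    · exact Or.inr (Or.inl (by simp))
  obtain ⟨A, hAne, hA⟩ := realize ι hι (conn H b) h1 hsym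
  -- direct iff clique
  have hdir : ∀ B : Set (Amb P), IsDirect A B ↔
      ∀ x ∈ B, ∀ y ∈ B, x ≠ y → ((x * y⁻¹).1 ∈ conn H b ∧ (x * y⁻¹).2 = 1) := by
    intro B
    constructor
    · intro h x hx y hy hxy
      by_contra hc
      obtain ⟨a, ha, a', ha', he⟩ := (hA (x * y⁻¹)).mpr hc
      have : a * x = a' * y := by
        have h2 : a' = a * (x * y⁻¹) := by rw [← he]; group
        rw [h2]; group
      exact hxy (h a ha x hx a' ha' y hy this).2
    · intro h a ha x hx a' ha' y hy he
      have h2 : a⁻¹ * a' = x * y⁻¹ := by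
        have : a' = a * x * y⁻¹ := by rw [he]; group
        rw [this]; group
      have h3 : x = y := by
        by_contra hxy
        exact (hA (x * y⁻¹)).mp ⟨a, ha, a', ha', h2⟩ (h x hx y hy hxy)
      subst h3
      exact ⟨mul_right_cancel he, rfl⟩
  -- the special subfactors
  have hH : IsRightSubfactor A {g : Amb P | g.1 ∈ H ∧ g.2 = 1} := by
    constructor
    · rw [hdir]
      rintro x ⟨hx, hx'⟩ y ⟨hy, hy'⟩ hxy
      refine ⟨Or.inl ⟨?_, ?_⟩, ?_⟩
      · exact H.mul_mem hx (H.inv_mem hy)
      · intro h
        apply hxy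
        have : x.1 = y.1 := mul_inv_eq_one.mp h
        exact Prod.ext this (by rw [hx', hy'])
      · show x.2 * y.2⁻¹ = 1
        rw [hx', hy']; simp
    · intro C hC hsub
      rw [hdir] at hC
      refine Set.Subset.antisymm ?_ hsub
      intro c hc
      by_contra hcn
      -- an element `h ≠ 1` of `H` with `h ≠ ...`
      have hex : ∃ h ∈ H, h ≠ 1 ∧ True := by
        by_contra hno
        have hbot : H = ⊥ := by
          rw [Subgroup.eq_bot_iff_forall]
          intro z hz
          by_contra hz1
          exact hno ⟨z, hz, hz1, trivial⟩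
        subst hbot
        have : #(⊥ : Subgroup P) = 1 := Cardinal.mk_eq_one _
        rw [this] at hcard
        have h2 : (1 : Cardinal) < #(Amb P) := by
          rw [Cardinal.one_lt_iff_nontrivial]
          exact ⟨1, (b, 1), fun h => hb1 (congrArg Prod.fst h).symm⟩
        exact h2.ne hcard
      obtain ⟨h, hhH, hh1, -⟩ := hex
      have c1 := hC c hc 1 (hsub ⟨H.one_mem, rfl⟩) (by
        rintro rfl; exact hcn ⟨H.one_mem, rfl⟩)
      have c2 := hC c hc (h, 1) (hsub ⟨hhH, rfl⟩) (by
        rintro rfl; exact hcn ⟨hhH, rfl⟩)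
      have c3 : c.2 = 1 := by simpa using c1.2
      have c4 : c.1 ∈ conn H b := by simpa using c1.1
      have c5 : c.1 * h⁻¹ ∈ conn H b := by simpa using c2.1
      have c6 : c.1 ∉ H := fun hh => hcn ⟨hh, c3⟩
      have c7 : c.1 * h⁻¹ ∉ H := fun hh => c6 (by simpa using H.mul_mem hh hhH)
      rcases c4 with ⟨hh, _⟩ | c4 | c4
      · exact c6 hh
      · rcases c5 with ⟨hh, _⟩ | c5 | c5
        · exact c7 hh
        · rw [c4] at c5
          apply hh1
          have : h⁻¹ = 1 := by simpa using c5
          simpa using this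
        · rw [c4] at c5
          apply hb2
          have : b * b = h := by
            have e : b * h⁻¹ * h = b⁻¹ * h := by rw [c5]
            rw [inv_mul_cancel_right] at e
            calc b * b = b * (b⁻¹ * h) := by rw [← e]
              _ = h := by group
          rw [this]; exact hhH
      · rcases c5 with ⟨hh, _⟩ | c5 | c5
        · exact c7 hh
        · rw [c4] at c5
          apply hb2
          have : b * b = h⁻¹ := by
            have e : b * (b⁻¹ * h⁻¹) = b * b := by rw [c5]
            rw [← e]; group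
          rw [this]; exact H.inv_mem hhH
        · rw [c4] at c5
          apply hh1
          have : h⁻¹ = 1 := by simpa using c5
          simpa using this
  have hpair : IsRightSubfactor A ({1, (b, 1)} : Set (Amb P)) := by
    constructor
    · rw [hdir]
      rintro x (rfl | hx) y (rfl | hy) hxy
      · exact absurd rfl hxy
      · rw [Set.mem_singleton_iff] at hy; subst hy
        exact ⟨by simp [conn], by simp⟩
      · rw [Set.mem_singleton_iff] at hx; subst hx
        exact ⟨by simp [conn], by simp⟩
      · rw [Set.mem_singleton_iff] at hx hy; subst hx; subst hy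
        exact absurd rfl hxy
    · intro C hC hsub
      rw [hdir] at hC
      refine Set.Subset.antisymm ?_ hsub
      intro c hc
      by_contra hcn
      have hc1 : c ≠ 1 := fun h => hcn (by rw [h]; simp)
      have hcb : c ≠ (b, 1) := fun h => hcn (by rw [h]; simp)
      have c1 := hC c hc 1 (hsub (by simp)) hc1
      have c2 := hC c hc (b, 1) (hsub (by simp)) hcb
      have c3 : c.2 = 1 := by simpa using c1.2
      have c4 : c.1 ∈ conn H b := by simpa using c1.1
      have c5 : c.1 * b⁻¹ ∈ conn H b := by simpa using c2.1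
      rcases c4 with ⟨hh, hh1⟩ | c4 | c4
      · rcases c5 with ⟨h5, _⟩ | c5 | c5
        · apply hb
          have := H.mul_mem (H.inv_mem h5) hh
          simpa using this
        · apply hb2
          have : b * b = c.1 := by rw [← mul_inv_eq_iff_eq_mul.mp c5]
          rw [this]; exact hh
        · apply hh1
          simpa using c5
      · exact hcb (Prod.ext c4 c3)
      · rw [c4] at c5
        rcases c5 with ⟨h5, _⟩ | c5 | c5
        · apply hb2
          have := H.inv_mem h5
          simpa using this
        · apply hb3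
          have : b * b * b = b * b * (b⁻¹ * b⁻¹) := by rw [c5]
          rw [this]; group
        · apply hb1
          simpa using c5
  refine ⟨A, ?_, ?_⟩
  · -- lower index
    apply le_antisymm
    · refine csInf_le' ⟨_, hpair, ?_⟩
      rw [Cardinal.mk_insert, Cardinal.mk_singleton]
      · norm_num
      · intro h
        rw [Set.mem_singleton_iff] at h
        exact hb1 (congrArg Prod.fst h).symm
    · refine le_csInf ⟨_, _, hpair, rfl⟩ ?_
      rintro c ⟨B, ⟨hB, hmax⟩, rfl⟩
      rw [Cardinal.two_le_iff]
      rw [hdir] at hB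
      -- B nonempty
      have hne : B.Nonempty := by
        by_contra hno
        rw [Set.not_nonempty_iff_eq_empty] at hno
        subst hno
        have := hmax {1} (by
          rw [hdir]
          intro x hx y hy hxy
          rw [Set.mem_singleton_iff] at hx hy
          exact absurd (hx.trans hy.symm) hxy) (Set.empty_subset _)
        exact (Set.singleton_ne_empty (1 : Amb P)) this
      obtain ⟨c, hc⟩ := hne
      by_contra hno
      push Not at hno
      have hsing : B = {c} := by
        ext z
        constructor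
        · intro hz
          exact congrArg Subtype.val (hno ⟨z, hz⟩ ⟨c, hc⟩)
        · rintro rfl; exact hc
      have hnew := hmax {c, (b, 1) * c} (by
        rw [hdir]
        rintro x (rfl | hx) y (rfl | hy) hxy
        · exact absurd rfl hxy
        · rw [Set.mem_singleton_iff] at hy; subst hy
          have e : x * ((b, 1) * x)⁻¹ = (b⁻¹, 1) := by
            rw [mul_inv_rev]
            ext
            · simp
            · simp
          rw [e]
          exact ⟨Or.inr (Or.inr rfl), rfl⟩
        · rw [Set.mem_singleton_iff] at hx; subst hx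
          have e : (b, 1) * y * y⁻¹ = ((b, 1) : Amb P) := by group
          rw [e]
          exact ⟨Or.inr (Or.inl rfl), rfl⟩
        · rw [Set.mem_singleton_iff] at hx hy; subst hx; subst hy
          exact absurd rfl hxy) (by rw [hsing]; simp)
      have hin : (b, 1) * c ∈ B := by rw [← hnew]; simp
      rw [hsing, Set.mem_singleton_iff] at hin
      have : ((b, 1) : Amb P) = 1 := by
        have := mul_right_cancel (hin.trans (one_mul c).symm)
        exact this
      exact hb1 (congrArg Prod.fst this)
  · -- upper index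
    apply le_antisymm
    · refine csSup_le' ?_
      rintro c ⟨B, -, rfl⟩
      exact Cardinal.mk_set_le B
    · refine le_csSup ⟨#(Amb P), ?_⟩ ⟨_, hH, ?_⟩
      · rintro c ⟨B, -, rfl⟩
        exact Cardinal.mk_set_le B
      · rw [← hcard]
        refine Cardinal.mk_congr ?_
        exact {
          toFun := fun h => ⟨(h.1, 1), h.2, rfl⟩
          invFun := fun g => ⟨g.1.1, g.2.1⟩
          left_inv := fun h => rfl
          right_inv := fun g => by
            rcases g with ⟨⟨g1, g2⟩, hg1, hg2⟩
            have hg2' : g2 = 1 := hg2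
            subst hg2'
            rfl }

/-- The base groups. -/
abbrev Base (X : Type u) (F : Type) : Type u := Multiplicative (X →₀ ℤ) × F

/-- The subgroup of functions with values divisible by `3`. -/
def tripled (X : Type u) (F : Type) [Group F] : Subgroup (Base X F) where
  carrier := {p | (∀ i, (3 : ℤ) ∣ Multiplicative.toAdd p.1 i) ∧ p.2 = 1}
  one_mem' := ⟨fun i => by simp, rfl⟩
  mul_mem' := by
    rintro a b ⟨ha, ha'⟩ ⟨hb, hb'⟩
    refine ⟨fun i => ?_, ?_⟩
    · simpa using dvd_add (ha i) (hb i)
    · show a.2 * b.2 = 1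
      rw [ha', hb', one_mul]
  inv_mem' := by
    rintro a ⟨ha, ha'⟩
    refine ⟨fun i => ?_, ?_⟩
    · simpa using ha i
    · show a.2⁻¹ = 1
      rw [ha', inv_one]

theorem mk_base (X : Type u) [Infinite X] (F : Type) [Finite F] [Nonempty F] :
    #(Base X F) = #X := by
  have h1 : #(Multiplicative (X →₀ ℤ)) = #X := by
    have : #(X →₀ ℤ) = max #X (lift.{u} #ℤ) := by
      rw [Cardinal.mk_finsupp_lift_of_infinite]
      simp
    rw [show #(Multiplicative (X →₀ ℤ)) = #(X →₀ ℤ) from rfl, this]
    simp
  have h2 : #(Base X F) = lift.{0} #(Multiplicative (X →₀ ℤ)) * lift.{u} #F :=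
    Cardinal.mk_prod _ _
  rw [h2, h1, Cardinal.lift_id']
  refine Cardinal.mul_eq_left (Cardinal.aleph0_le_mk X) ?_ ?_
  · have : lift.{u} #F < ℵ₀ := by
      rw [Cardinal.lift_lt_aleph0]
      exact Cardinal.mk_lt_aleph0
    exact this.le.trans (Cardinal.aleph0_le_mk X)
  · rw [Ne, Cardinal.lift_eq_zero]
    exact Cardinal.mk_ne_zero F

theorem infinite_base (X : Type u) [Infinite X] (F : Type) [Finite F] [Nonempty F] :
    Infinite (Base X F) := by
  rw [Cardinal.infinite_iff, mk_base]
  exact Cardinal.aleph0_le_mk X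

theorem mk_amb (P : Type u) [Infinite P] : #(Amb P) = #P := by
  have h1 : #(Multiplicative (P →₀ ℤ)) = #P := by
    have : #(P →₀ ℤ) = max #P (lift.{u} #ℤ) := by
      rw [Cardinal.mk_finsupp_lift_of_infinite]
      simp
    rw [show #(Multiplicative (P →₀ ℤ)) = #(P →₀ ℤ) from rfl, this]
    simp
  have h2 : #(Amb P) = #P * #(Multiplicative (P →₀ ℤ)) := by
    rw [Cardinal.mk_prod, Cardinal.lift_id, Cardinal.lift_id]
  rw [h2, h1]
  exact Cardinal.mul_eq_self (Cardinal.aleph0_le_mk P)

theorem main (X : Type u) [Infinite X] (F : Type) [Group F] [Finite F] :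
    ∃ A : Set (Amb (Base X F)), lowerIndex A = 2 ∧ upperIndex A = #X := by
  classical
  have hinf := infinite_base X F
  have hc : #(Amb (Base X F)) = #X := by rw [mk_amb, mk_base]
  have hemb : Nonempty (Amb (Base X F) ↪ Base X F) := by
    rw [← Cardinal.le_def, mk_amb]
  obtain ⟨ι⟩ := hemb
  obtain ⟨x0⟩ : Nonempty X := inferInstance
  set b : Base X F := (Multiplicative.ofAdd (Finsupp.single x0 1), 1) with hb
  rw [← hc]
  refine main_construction ι ι.injective (tripled X F) b ?_ ?_ ?_ ?_
  · rintro ⟨h, -⟩
    have := h x0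
    simp [hb] at this
  · rintro ⟨h, -⟩
    have := h x0
    simp [hb] at this
  · intro h
    have h2 := congrArg (fun z : Base X F => Multiplicative.toAdd z.1 x0) h
    simp [hb] at h2
  · apply le_antisymm
    · exact (Cardinal.mk_set_le _).trans (mk_amb (Base X F)).ge
    · rw [hc]
      refine Cardinal.mk_le_of_injective
        (f := fun x : X => (⟨(Multiplicative.ofAdd (Finsupp.single x 3), 1), ?_, rfl⟩ :
          tripled X F)) ?_
      · intro i
        by_cases hi : x = i
        · subst hi; simp
        · simp [Finsupp.single_eq_of_ne (Ne.symm hi)]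
      · intro x y hxy
        have h2 := congrArg (fun z : tripled X F => Multiplicative.toAdd z.1.1) hxy
        have h3 : Finsupp.single x (3 : ℤ) = Finsupp.single y 3 := h2
        exact Finsupp.single_left_injective (by norm_num : (3 : ℤ) ≠ 0) h3

/-- **Main theorem.** Every infinite cardinal `α` is the upper subindex of a subset with lower
subindex `2`, both in an abelian and in a non-abelian group. -/
theorem result (α : Cardinal.{u}) (hα : ℵ₀ ≤ α) :
    (∃ (G : Type u) (_ : CommGroup G) (A : Set G), lowerIndex A = 2 ∧ upperIndex A = α) ∧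
    (∃ (G : Type u) (_ : Group G) (A : Set G),
      (∃ x y : G, x * y ≠ y * x) ∧ lowerIndex A = 2 ∧ upperIndex A = α) := by
  have hX : #α.out = α := Cardinal.mk_out α
  have hinf : Infinite α.out := by rw [Cardinal.infinite_iff, hX]; exact hα
  refine ⟨?_, ?_⟩
  · obtain ⟨A, hA1, hA2⟩ := main α.out (Multiplicative (ZMod 1))
    exact ⟨Amb (Base α.out (Multiplicative (ZMod 1))), inferInstance, A, hA1, hA2.trans hX⟩
  · obtain ⟨A, hA1, hA2⟩ := main α.out (Equiv.Perm (Fin 3))
    refine ⟨Amb (Base α.out (Equiv.Perm (Fin 3))), inferInstance, A, ?_, hA1, hA2.trans hX⟩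
    refine ⟨((1, Equiv.swap 0 1), 1), ((1, Equiv.swap 1 2), 1), ?_⟩
    intro h
    have h2 := congrArg (fun z : Amb (Base α.out (Equiv.Perm (Fin 3))) => z.1.2) h
    have h3 : Equiv.swap (0 : Fin 3) 1 * Equiv.swap 1 2 = Equiv.swap 1 2 * Equiv.swap 0 1 := h2
    revert h3
    decide

end Pool.Agent.Results.MP_453038_al.LowerTwo
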